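import Pool.Agent.H38.T6.C1.Leaf

set_option autoImplicit false
set_option maxRecDepth 100000

namespace Pool.Agent.H38.T6.C1

theorem sym : symChk R = true := by decide +kernel

theorem i01 : inv01Chk R = true := by decide +kernel

theorem i12 : inv12Chk R = true := by decide +kernel

theorem i23 : inv23Chk R = true := by decide +kernel

theorem i2 : inv2Chk A = true := by decide +kernel

theorem two : twoChk A G 20 67108864 381320 := by decide +kernel

end Pool.Agent.H38.T6.C1
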